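import Pool.Agent.Y305.BC.Stm

/-! BC-FOU: decomposition of a smooth function on the circle into boundary values. -/

set_option autoImplicit false

open MeasureTheory Metric Set Filter Topology
open scoped ContDiff ENNReal FourierTransform SchwartzMap

namespace Pool.Agent.Y446.BC

open Pool.Agent.Y305.BC

/-- rapidly decreasing sequences -/
def Rap (a : ℕ → ℂ) : Prop := ∀ k : ℕ, Summable fun n : ℕ => (n : ℝ) ^ k * ‖a n‖

/-- the power series -/
noncomputable def PS (a : ℕ → ℂ) (z : ℂ) : ℂ := ∑' n, a n * z ^ n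

/-- its derivative -/
noncomputable def PS' (a : ℕ → ℂ) (z : ℂ) : ℂ := ∑' n, a n * (n * z ^ (n - 1))

theorem ex_add (x y : ℝ) : ex (x + y) = ex x * ex y := by
  unfold ex
  rw [← Complex.exp_add]
  congr 1
  push_cast
  ring

theorem ex_norm (x : ℝ) : ‖ex x‖ = 1 := by
  unfold ex
  rw [show (2 * (Real.pi : ℂ) * x * Complex.I) = ((2 * Real.pi * x : ℝ) : ℂ) * Complex.I by
    push_cast; ring]
  exact Complex.norm_exp_ofReal_mul_I _

theorem ex_neg (x : ℝ) : ex (-x) = (ex x)⁻¹ := by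
  unfold ex
  rw [← Complex.exp_neg]
  congr 1
  push_cast
  ring

theorem ex_pow (x : ℝ) (n : ℕ) : ex x ^ n = Complex.exp (2 * Real.pi * Complex.I * n * x) := by
  unfold ex
  rw [← Complex.exp_nat_mul]
  congr 1
  ring

theorem pow_le {z : ℂ} (hz : ‖z‖ ≤ 1) (n : ℕ) : ‖z ^ n‖ ≤ 1 := by
  rw [norm_pow]
  exact pow_le_one₀ (norm_nonneg _) hz

variable {a : ℕ → ℂ}

theorem Rap.s0 (ha : Rap a) : Summable fun n => ‖a n‖ := by simpa using ha 0

theorem Rap.s1 (ha : Rap a) : Summable fun n : ℕ => (n : ℝ) * ‖a n‖ := by simpa using ha 1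

theorem b0 {z : ℂ} (hz : ‖z‖ ≤ 1) (n : ℕ) : ‖a n * z ^ n‖ ≤ ‖a n‖ := by
  rw [norm_mul]
  exact mul_le_of_le_one_right (norm_nonneg _) (pow_le hz n)

theorem b1 {z : ℂ} (hz : ‖z‖ ≤ 1) (n : ℕ) : ‖a n * (n * z ^ (n - 1))‖ ≤ n * ‖a n‖ := by
  rw [norm_mul, norm_mul, Complex.norm_natCast, mul_comm]
  have := pow_le hz (n - 1)
  have h2 : (n : ℝ) * ‖z ^ (n - 1)‖ ≤ n := mul_le_of_le_one_right (by positivity) this
  exact mul_le_mul_of_nonneg_right h2 (norm_nonneg _)

theorem PS_sum (ha : Rap a) {z : ℂ} (hz : ‖z‖ ≤ 1) : Summable fun n => a n * z ^ n :=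
  Summable.of_norm_bounded ha.s0 fun n => b0 hz n

theorem PS_cont (ha : Rap a) : ContinuousOn (PS a) {z | ‖z‖ ≤ 1} :=
  continuousOn_tsum (fun n => by fun_prop) ha.s0 fun n z hz => b0 hz n

theorem PS'_cont (ha : Rap a) : ContinuousOn (PS' a) {z | ‖z‖ ≤ 1} :=
  continuousOn_tsum (fun n => by fun_prop) ha.s1 fun n z hz => b1 hz n

theorem PS_der (ha : Rap a) {z : ℂ} (hz : ‖z‖ < 1) : HasDerivAt (PS a) (PS' a z) z := by
  have hb : ∀ {w : ℂ}, w ∈ ball (0 : ℂ) 1 → ‖w‖ ≤ 1 := fun hw => (mem_ball_zero_iff.1 hw).le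
  refine hasDerivAt_tsum_of_isPreconnected (t := ball (0 : ℂ) 1) (y₀ := z)
    (g := fun n w => a n * w ^ n) (g' := fun n w => a n * (n * w ^ (n - 1))) ha.s1 isOpen_ball
    (convex_ball _ _).isPreconnected (fun n w _ => ?_) (fun n w hw => b1 (hb hw) n)
    (by simpa using hz) (PS_sum ha hz.le) (by simpa using hz)
  exact (hasDerivAt_pow n w).const_mul (a n)

theorem it_exp (c α : ℂ) (k : ℕ) :
    iteratedDeriv k (fun x : ℝ => c * Complex.exp (α * x)) =
      fun x : ℝ => α ^ k * (c * Complex.exp (α * x)) := by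
  induction k with
  | zero => simp
  | succ k ih =>
    rw [iteratedDeriv_succ, ih]
    ext x
    have h1 : HasDerivAt (fun x : ℝ => α * (x : ℂ)) α x := by
      simpa using (Complex.ofRealCLM.hasDerivAt (x := x)).const_mul α
    have h2 : HasDerivAt (fun x : ℝ => α ^ k * (c * Complex.exp (α * x)))
        (α ^ k * (c * (Complex.exp (α * x) * α))) x := (h1.cexp.const_mul c).const_mul _
    rw [h2.deriv]
    ring

theorem PS_smooth (ha : Rap a) : ContDiff ℝ ∞ fun x : ℝ => PS a (ex x) := by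
  have h0 : (fun x : ℝ => PS a (ex x)) =
      fun x : ℝ => ∑' n : ℕ, a n * Complex.exp (2 * Real.pi * Complex.I * n * x) := by
    ext x
    exact tsum_congr fun n => by rw [ex_pow]
  rw [h0]
  refine contDiff_tsum (v := fun (k n : ℕ) => (2 * Real.pi) ^ k * ((n : ℝ) ^ k * ‖a n‖)) (fun n => ?_)
    (fun k _ => (ha k).mul_left _) fun k n x _ => ?_
  · exact contDiff_const.mul ((contDiff_const.mul Complex.ofRealCLM.contDiff).cexp)
  · rw [norm_iteratedFDeriv_eq_norm_iteratedDeriv, it_exp]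
    rw [norm_mul, norm_mul, norm_pow]
    have h1 : ‖Complex.exp (2 * Real.pi * Complex.I * n * x)‖ = 1 := by
      rw [← ex_pow, norm_pow, ex_norm, one_pow]
    have h2 : ‖(2 * Real.pi * Complex.I * n : ℂ)‖ = 2 * Real.pi * n := by
      simp [abs_of_pos Real.pi_pos]
    rw [h1, h2, mul_one, mul_pow, mul_assoc]

theorem rap_of_decay {c : ℤ → ℂ} (hc : ∀ k : ℕ, ∃ C : ℝ, ∀ n : ℤ, |(n : ℝ)| ^ k * ‖c n‖ ≤ C)
    (f : ℕ → ℤ) (hf : ∀ n, |(f n : ℝ)| = n) (a : ℕ → ℂ) (ha : ∀ n, ‖a n‖ ≤ ‖c (f n)‖) : Rap a := by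
  intro k
  obtain ⟨C, hC⟩ := hc (k + 2)
  have h1 : Summable fun n : ℕ => C * ((n : ℝ) ^ 2)⁻¹ :=
    ((Real.summable_nat_pow_inv (p := 2)).2 (by norm_num)).mul_left C
  refine Summable.of_norm_bounded_eventually_nat h1 ?_
  filter_upwards [eventually_gt_atTop 0] with n hn
  have hn' : (0 : ℝ) < n := by exact_mod_cast hn
  rw [Real.norm_of_nonneg (by positivity), ← div_eq_mul_inv, le_div_iff₀ (by positivity)]
  have := hC (f n)
  rw [hf] at this
  calc (n : ℝ) ^ k * ‖a n‖ * (n : ℝ) ^ 2 = (n : ℝ) ^ (k + 2) * ‖a n‖ := by ring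
    _ ≤ (n : ℝ) ^ (k + 2) * ‖c (f n)‖ := by gcongr; exact ha n
    _ ≤ C := this

theorem fou : S_FOU := by
  intro h hs h0
  have hc : HasCompactSupport h :=
    HasCompactSupport.intro (isCompact_Icc (a := (0 : ℝ)) (b := 1 / 4)) h0
  set H : 𝓢(ℝ, ℂ) := hc.toSchwartzMap hs with hH
  set gS : 𝓢(ℝ, ℂ) := 𝓕 H with hgS
  set c : ℤ → ℂ := fun n => gS (n : ℝ) with hcdef
  have hdec : ∀ k : ℕ, ∃ C : ℝ, ∀ n : ℤ, |(n : ℝ)| ^ k * ‖c n‖ ≤ C := by
    intro k
    obtain ⟨C, hC⟩ := gS.decay k 0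
    refine ⟨C, fun n => ?_⟩
    have := hC.2 n
    rw [norm_iteratedFDeriv_zero] at this
    exact this
  set p : ℕ → ℂ := fun n => c n with hp
  set q : ℕ → ℂ := fun n => if n = 0 then 0 else c (-n) with hq
  have hpr : Rap p := rap_of_decay hdec (fun n => n) (fun n => by simp) p fun n => le_rfl
  have hqr : Rap q := rap_of_decay hdec (fun n => -n) (fun n => by simp) q fun n => by
    rw [hq]
    dsimp only
    split_ifs with h
    · rw [norm_zero]; exact norm_nonneg _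
    · exact le_rfl
  have hqr2 : Rap fun n => q n * (2⁻¹) ^ n := fun k => by
    refine Summable.of_norm_bounded (hqr k) fun n => ?_
    rw [Real.norm_of_nonneg (by positivity)]
    gcongr
    rw [norm_mul]
    refine mul_le_of_le_one_right (norm_nonneg _) (pow_le ?_ n)
    rw [norm_inv]
    norm_num
  refine ⟨PS p, PS' p, fun z => -PS q z⁻¹, fun z => PS' q z⁻¹ * (z ^ 2)⁻¹, ⟨?_, ?_, ?_⟩,
    ⟨?_, ?_, ?_⟩, PS_smooth hpr, ?_, ?_⟩
  · exact (PS_cont hpr).mono fun z hz => hz.2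
  · exact (PS'_cont hpr).mono fun z hz => hz.2
  · exact fun z _ hz => PS_der hpr hz
  · have hinv : ContinuousOn (fun z : ℂ => z⁻¹) {z | 1 ≤ ‖z‖ ∧ ‖z‖ ≤ 2} := by
      refine continuousOn_id.inv₀ fun z hz hz0 => ?_
      have : z = 0 := hz0
      simp only [this, norm_zero, mem_ofPred_eq] at hz
      linarith [hz.1]
    refine ((PS_cont hqr).comp hinv fun z hz => ?_).neg
    show ‖z⁻¹‖ ≤ 1
    rw [norm_inv]
    exact inv_le_one_of_one_le₀ hz.1
  · have hne : ∀ z ∈ {z : ℂ | 1 ≤ ‖z‖ ∧ ‖z‖ ≤ 2}, z ≠ 0 := by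
      intro z hz hz0
      simp only [hz0, norm_zero, mem_ofPred_eq] at hz
      linarith [hz.1]
    have hinv : ContinuousOn (fun z : ℂ => z⁻¹) {z | 1 ≤ ‖z‖ ∧ ‖z‖ ≤ 2} :=
      continuousOn_id.inv₀ fun z hz => hne z hz
    refine ((PS'_cont hqr).comp hinv fun z hz => ?_).mul ?_
    · show ‖z⁻¹‖ ≤ 1
      rw [norm_inv]
      exact inv_le_one_of_one_le₀ hz.1
    · exact (continuousOn_pow 2).inv₀ fun z hz => pow_ne_zero 2 (hne z hz)
  · intro z hz _
    have hz0 : z ≠ 0 := by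
      rintro rfl
      rw [norm_zero] at hz
      linarith
    have h1 : ‖z⁻¹‖ < 1 := by
      rw [norm_inv]
      exact inv_lt_one_of_one_lt₀ hz
    have h2 := ((PS_der hqr h1).comp z (hasDerivAt_inv hz0)).neg
    rw [mul_neg, neg_neg] at h2
    exact h2
  · have h1 : (fun x : ℝ => -PS q (pol 2 x)⁻¹) =
        fun x : ℝ => -PS (fun n => q n * (2⁻¹) ^ n) (ex (-x)) := by
      ext x
      congr 1
      unfold PS
      refine tsum_congr fun n => ?_
      rw [ex_neg, mul_assoc, ← mul_pow, pol, mul_inv]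
      norm_num
    rw [h1]
    exact ((PS_smooth hqr2).comp contDiff_neg).neg
  · intro x hx1 hx2
    have hP := H.tsum_eq_tsum_fourier x
    have hL : ∑' n : ℤ, H (x + n) = h x := by
      rw [tsum_eq_single 0]
      · simp [hH]
      · intro m hm
        show h (x + m) = 0
        refine h0 _ fun hmem => ?_
        rcases lt_or_gt_of_ne hm with h | h
        · have : (m : ℝ) ≤ -1 := by exact_mod_cast Int.le_sub_one_of_lt h
          linarith [hmem.1]
        · have : (1 : ℝ) ≤ m := by exact_mod_cast h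
          linarith [hmem.2]
    rw [hL] at hP
    rw [hP]
    have hf : ∀ n : ℤ, fourier n (x : UnitAddCircle) = ex x ^ n := by
      intro n
      rw [fourier_coe_apply]
      unfold ex
      rw [← Complex.exp_int_mul]
      congr 1
      push_cast
      ring
    have hsum : HasSum (fun n : ℤ => c n * ex x ^ n) (PS p (ex x) + PS q (ex x)⁻¹) := by
      refine HasSum.of_nat_of_neg_add_one ?_ ?_
      · have := (PS_sum hpr (ex_norm x).le).hasSum
        simp only [zpow_natCast]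
        exact this
      · have hx' : ‖(ex x)⁻¹‖ ≤ 1 := by rw [norm_inv, ex_norm, inv_one]
        have h1 := PS_sum hqr hx'
        have h2 : PS q (ex x)⁻¹ = ∑' n : ℕ, q (n + 1) * (ex x)⁻¹ ^ (n + 1) := by
          unfold PS
          rw [h1.tsum_eq_zero_add]
          simp [hq]
        rw [h2]
        have h3 := ((summable_nat_add_iff 1).2 h1).hasSum
        have h4 : (fun n : ℕ => c (-((n : ℤ) + 1)) * ex x ^ (-((n : ℤ) + 1))) =
            fun n : ℕ => q (n + 1) * (ex x)⁻¹ ^ (n + 1) := by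
          ext n
          have e1 : q (n + 1) = c (-((n : ℤ) + 1)) := by
            simp [hq]
          rw [e1, zpow_neg, inv_pow]
          congr 2
        rw [h4]
        exact h3
    refine Eq.trans ?_ (hsum.tsum_eq.symm.trans (tsum_congr fun n => by rw [hf]))
    show PS p (ex x) - -PS q (ex x)⁻¹ = _
    ring

end Pool.Agent.Y446.BC
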